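import Pool.Agent.TH706.SD.OneSided

/-!
# Co-nondeterminism against nondeterminism, Merlin-Arthur games and `SBP` in linear time, with a
stack

The model is the one of time-space lower bounds, extended by a stack: programs with nodes which
query one of `n` Boolean variables (any order, repetitions allowed), push or pop a symbol of any
alphabet, or output a bit (`Pool.Agent.W896.PD.PP`; this is a non-uniform model); `2 ^ s` nodes
stand for space `s`, the number of queries for the time. The height of the stack and the number of
steps are not bounded. (With a stack, polynomial time is as good as logarithmic space: these are
the auxiliary pushdown machines of Cook.)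

We give functions with co-nondeterministic computations which are as simple as possible: a few
programs without a stack (at most `β n`, where `β` tends to infinity as slowly as one likes), each
of which reads the input once, in a fixed order, and has `β n * n` nodes, and the value is `true` if
and only if all of them accept. These functions are not given, with `k n` queries, space `n / β n`
and an unlimited stack, by the number of accepting programs (certificates, coin strings, ...) and a
threshold with a gap: at least `(1 + 1 / q) b` of the programs accept if the value is `true`, and at
most `b` of them if it is `false`; here `b` may be as small as a `2 ^ (- n / β n)` part of the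
number of the programs. Nondeterministic programs (`b < 1`; `n / β n` bits are guessed in the
beginning), randomised programs with two-sided error `1 / 2 - ε`, Merlin-Arthur games with an error
that is exponentially small in the length of the message of Merlin, and the class `SBP` (Böhler,
Glaßer, Meister) are of this form. So the analogues of `coNP ⊈ NP/poly` and even of
`coNP ⊈ MA/poly ⊆ SBP/poly` are true for machines with an unlimited stack, sublinear space and
linearly many reads.

The starting result `LinearTimeConondeterminism` is the case without a stack; its functions (all of
`2 L + 2` random quadratic forms in blocks are zero) and its one-sided comparison of patterns are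
used.  New is that conjunctions of a constant number of programs with a stack are treated: the
computation tree of a program with a stack is cut canonically (where `⌊size / t⌋` changes), which
partitions the inputs into `2 ^ (O(S r))` sets of inputs with `O(r)` blocks of queries
(`Pool.Agent.TH706.CD`), and the common refinement for several programs is compared, pattern by
pattern, with the one-sided covering of `Pool.Agent.H554R2.Rnd` (`Pool.Agent.TH706.SD.Det`).
-/

set_option autoImplicit false

namespace Pool.Agent.Results.MP_a77cad_lc.ConondeterminismStack

open Pool.Agent.H554R2.Sem Pool.Agent.H554R2.Coin
open Pool.Agent.W896.PD (PP)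

/-- The program `P` with a stack accepts the input `x` after at most `τ` queries (and any number of
pushes and pops). -/
def Acc {n : ℕ} (P : PP (Fin n) Bool) (τ : ℕ) (x : Pt n) : Prop :=
  ∃ l, P.Comp x l true ∧ l.length ≤ τ

/-- The function `f` has a one-pass co-nondeterministic computation: there are `J ≤ D` programs
without a stack and with at most `D * n` nodes, each of which reads on all inputs the same variables
in the same order, each variable at most once, and `f x` is `true` if and only if all of them
accept `x`. -/
def OnePassCoNP (n D : ℕ) (f : Pt n → Bool) : Prop :=
  ∃ (J : ℕ) (V : Fin J → BP (Fin n) Bool), J ≤ D ∧
    (∀ j, Fintype.card (V j).State ≤ D * n ∧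
      ∃ l : List (Fin n), l.Nodup ∧ ∀ x : Pt n, ∃ b, (V j).Comp x l b) ∧
    ∀ x, f x = true ↔ ∀ j, ∃ l, (V j).Comp x l true

/-- The function `f` is not computed with `k * n` queries, space `n / D` and an unlimited stack by a
threshold with a gap: for all `I` programs `P ω` with a stack and at most `2 ^ (n / D)` nodes and
every threshold `b > 0` with `I ≤ b * 2 ^ (n / D)`, it is not true that on every input `x` at least
`(1 + 1 / q) * b` of the programs accept within `τ ≤ k * n` queries if `f x = true`, and at most
`b` of them if `f x = false`. -/
def NoGapThreshold (n k q D : ℕ) (f : Pt n → Bool) : Prop :=
  ∀ τ ≤ k * n, ∀ (I : ℕ) (b : ℝ) (P : Fin I → PP (Fin n) Bool), 0 < b →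
    (I : ℝ) ≤ b * 2 ^ (n / D) → (∀ ω, Fintype.card (P ω).State ≤ 2 ^ (n / D)) →
    ∃ x, (f x = true ∧ q * Nat.card {ω // Acc (P ω) τ x} < (q + 1) * b) ∨
      (f x = false ∧ b < Nat.card {ω // Acc (P ω) τ x})

/-- Let `β n` tend to infinity, as slowly as one likes.  There is a family of Boolean functions
`F n` such that for all constants `k`, `q` and all large `n` the function `F n` has a one-pass
co-nondeterministic computation with at most `β n` programs with `β n * n` nodes (and no stack),
but is not computed by a threshold with the gap `1 + 1 / q` for programs with an unlimited stack,
with `k n` queries and space `n / β n`. -/
theorem result (β : ℕ → ℕ) (hβ : Filter.Tendsto β Filter.atTop Filter.atTop) :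
    ∃ F : ∀ n, Pt n → Bool, ∀ k q : ℕ, ∃ N, ∀ n ≥ N,
      OnePassCoNP n (β n) (F n) ∧ NoGapThreshold n k q (β n) (F n) :=
  Pool.Agent.TH706.SD.one_family β hβ

end Pool.Agent.Results.MP_a77cad_lc.ConondeterminismStack
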